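import Mathlib

set_option autoImplicit false

open Filter Topology

namespace Pool.Agent.Results.MP_2bf81a_ag.ThetaNotEmbedding

noncomputable section

/-- The symmetric complex matrix with entries `τ s(i, j)`.  Symmetric `g × g` complex matrices are
written as functions on the unordered pairs `s(i, j)` of indices, so that
`Sym2 (Fin g) → ℂ` is the complex vector space of symmetric matrices. -/
def mat {g : ℕ} (τ : Sym2 (Fin g) → ℂ) : Matrix (Fin g) (Fin g) ℂ :=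
  Matrix.of fun i j => τ s(i, j)

/-- The Siegel upper half space `H_g`: symmetric complex matrices with positive definite
imaginary part. -/
def Siegel (g : ℕ) : Set (Sym2 (Fin g) → ℂ) :=
  {τ | ∀ x : Fin g → ℝ, x ≠ 0 → 0 < ∑ i, ∑ j, x i * (τ s(i, j)).im * x j}

/-- The theta level two subgroup `Γ_g(2,4)` of `Sp(2g, ℤ)`: matrices `(a b; c d)` congruent to `1`
modulo `2` with `diag (aᵗ b) ≡ diag (cᵗ d) ≡ 0` modulo `4`. -/
def Gamma24 (g : ℕ) : Set (Matrix (Fin g ⊕ Fin g) (Fin g ⊕ Fin g) ℤ) :=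
  {γ | γ ∈ Matrix.symplecticGroup (Fin g) ℤ ∧ (∀ i j, (2 : ℤ) ∣ (γ - 1) i j) ∧
    (∀ i, (4 : ℤ) ∣ (γ.toBlocks₁₁.transpose * γ.toBlocks₁₂) i i) ∧
    (∀ i, (4 : ℤ) ∣ (γ.toBlocks₂₁.transpose * γ.toBlocks₂₂) i i)}

/-- A matrix of integers as a matrix of complex numbers. -/
def toC {g : ℕ} (a : Matrix (Fin g) (Fin g) ℤ) : Matrix (Fin g) (Fin g) ℂ :=
  a.map (fun n : ℤ => (n : ℂ))

/-- `τ' = (a τ + b) (c τ + d)⁻¹` for some `(a b; c d)` in `Γ_g(2,4)`, that is, `τ` and `τ'` give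
the same point of `A_g(2,4) = H_g / Γ_g(2,4)`. -/
def SamePoint {g : ℕ} (τ τ' : Sym2 (Fin g) → ℂ) : Prop :=
  ∃ γ ∈ Gamma24 g, mat τ' =
    (toC γ.toBlocks₁₁ * mat τ + toC γ.toBlocks₁₂) * (toC γ.toBlocks₂₁ * mat τ + toC γ.toBlocks₂₂)⁻¹

/-- The vector of second order theta constants
`Θ[ε](τ) = ∑_{n ∈ ℤ^g} exp (π i (n + ε)ᵗ (2 τ) (n + ε))`, where `ε ∈ {0, 1/2}^g` is written as
`ε = e / 2` with `e : Fin g → Fin 2`. -/
def Theta {g : ℕ} (τ : Sym2 (Fin g) → ℂ) (e : Fin g → Fin 2) : ℂ :=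
  ∑' n : Fin g → ℤ, Complex.exp (Real.pi * Complex.I *
    ∑ i, ∑ j, ((n i : ℂ) + ((e i : ℕ) : ℂ) / 2) * (2 * τ s(i, j)) * ((n j : ℂ) + ((e j : ℕ) : ℂ) / 2))

/-- `W` is an open cone of nonzero vectors of `ℂ^(2^g)`, that is, the cone over an open subset of
the projective space `P^(2^g - 1)`. -/
def IsOpenCone {g : ℕ} (W : Set ((Fin g → Fin 2) → ℂ)) : Prop :=
  IsOpen W ∧ (0 : (Fin g → Fin 2) → ℂ) ∉ W ∧ ∀ z ∈ W, ∀ c : ℂ, c ≠ 0 → c • z ∈ W

/-- `F` is a holomorphic function on the open subset of `P^(2^g - 1)` given by the open cone `W`: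
a holomorphic function on `W`, homogeneous of degree `0`. -/
def IsHolomorphicOnCone {g : ℕ} (W : Set ((Fin g → Fin 2) → ℂ)) (F : ((Fin g → Fin 2) → ℂ) → ℂ) :
    Prop :=
  DifferentiableOn ℂ F W ∧ ∀ z ∈ W, ∀ c : ℂ, c ≠ 0 → F (c • z) = F z

/-- `f` is a holomorphic function on the open subset `π(V)` of the analytic space `A_g(2,4)`, where
`V ⊆ H_g` is open and `π : H_g → A_g(2,4)` is the quotient map: `f` is holomorphic on `V` and takes
equal values at points of `V` that give the same point of `A_g(2,4)`. -/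
def IsHolomorphicOnQuotient {g : ℕ} (V : Set (Sym2 (Fin g) → ℂ)) (f : (Sym2 (Fin g) → ℂ) → ℂ) :
    Prop :=
  DifferentiableOn ℂ f V ∧ ∀ τ ∈ V, ∀ τ' ∈ V, SamePoint τ τ' → f τ = f τ'

/-- Topological part of `Th` being an isomorphism onto its image near the point `π(τ₀)` of
`A_g(2,4)`: every neighbourhood `π(U)` of `π(τ₀)` contains `Th⁻¹(W)` for some neighbourhood `W` of
`Th(π(τ₀))` in projective space (continuity of the inverse of `Th` on the image of `Th`). -/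
def InverseContinuousAt (g : ℕ) (τ₀ : Sym2 (Fin g) → ℂ) : Prop :=
  ∀ U : Set (Sym2 (Fin g) → ℂ), IsOpen U → U ⊆ Siegel g → τ₀ ∈ U →
    ∃ W : Set ((Fin g → Fin 2) → ℂ), IsOpenCone W ∧ Theta τ₀ ∈ W ∧
      ∀ τ ∈ Siegel g, Theta τ ∈ W → ∃ τ' ∈ U, SamePoint τ τ'

/-- Analytic part of `Th` being an isomorphism onto its image near the point `π(τ₀)` of `A_g(2,4)`:
every holomorphic function defined near `π(τ₀)` on `A_g(2,4)` agrees near `π(τ₀)` with the
pull-back under `Th` of a holomorphic function defined near `Th(π(τ₀))` in projective space. -/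
def FunctionsArePullbacksAt (g : ℕ) (τ₀ : Sym2 (Fin g) → ℂ) : Prop :=
  ∀ (V : Set (Sym2 (Fin g) → ℂ)) (f : (Sym2 (Fin g) → ℂ) → ℂ),
    IsOpen V → V ⊆ Siegel g → τ₀ ∈ V → IsHolomorphicOnQuotient V f →
    ∃ (W : Set ((Fin g → Fin 2) → ℂ)) (F : ((Fin g → Fin 2) → ℂ) → ℂ),
      IsOpenCone W ∧ Theta τ₀ ∈ W ∧ IsHolomorphicOnCone W F ∧
      ∀ᶠ τ in 𝓝 τ₀, f τ = F (Theta τ)

/-- The theta map `Th : A_g(2,4) → P^(2^g - 1)` is an embedding: it is injective, and it is an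
isomorphism of complex analytic spaces onto its image. -/
def ThetaMapIsEmbedding (g : ℕ) : Prop :=
  (∀ τ ∈ Siegel g, ∀ τ' ∈ Siegel g,
    (∃ c : ℂ, c ≠ 0 ∧ Theta τ' = c • Theta τ) → SamePoint τ τ') ∧
  ∀ τ₀ ∈ Siegel g, InverseContinuousAt g τ₀ ∧ FunctionsArePullbacksAt g τ₀

/-! ### Estimates near the base point -/

lemma summable_pi {u : ℤ → ℝ} (hu : Summable u) (h0 : ∀ n, 0 ≤ u n) :
    ∀ k : ℕ, Summable (fun n : Fin k → ℤ => ∏ i, u (n i))
  | 0 => by
    exact Summable.of_finite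
  | k + 1 => by
    have ih := summable_pi hu h0 k
    have h := Summable.mul_of_nonneg hu ih h0 (fun n => Finset.prod_nonneg fun i _ => h0 _)
    rw [← (Fin.consEquiv (fun _ : Fin (k + 1) => ℤ)).summable_iff]
    refine h.congr fun x => ?_
    simp [Fin.consEquiv, Fin.prod_univ_succ]

lemma summable_exp_abs : Summable (fun n : ℤ => Real.exp (-|(n : ℝ)|)) := by
  have h : Summable (fun n : ℕ => Real.exp (-(n : ℝ))) := Real.summable_exp_neg_nat
  rw [summable_int_iff_summable_nat_and_neg]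
  constructor
  · refine h.congr fun n => ?_
    simp
  · refine h.congr fun n => ?_
    simp

lemma summable_exp_pi : Summable (fun n : Fin 4 → ℤ => Real.exp (-∑ i, |(n i : ℝ)|)) := by
  refine (summable_pi summable_exp_abs (fun n => (Real.exp_pos _).le) 4).congr fun n => ?_
  rw [← Finset.sum_neg_distrib, Real.exp_sum]

/-- The real matrix `T`; the base point is `i T`. -/
def TT (x : ℝ) : Matrix (Fin 4) (Fin 4) ℝ :=
  !![4 * x ^ 3, x, 0, 0; x, 4 * x ^ 4, 0, 0; 0, 0, 4 * x ^ 5, x ^ 2; 0, 0, x ^ 2, 4 * x ^ 6]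

lemma TT_symm (x : ℝ) (i j : Fin 4) : TT x i j = TT x j i := by
  fin_cases i <;> fin_cases j <;> rfl

/-- The base point `τ₀ = i T`. -/
def tau0 (x : ℝ) : Sym2 (Fin 4) → ℂ :=
  Sym2.lift ⟨fun i j => Complex.I * (TT x i j : ℂ), fun i j => congrArg (fun t : ℝ => Complex.I * (t : ℂ)) (TT_symm x i j)⟩

lemma tau0_mk (x : ℝ) (i j : Fin 4) : tau0 x s(i, j) = Complex.I * (TT x i j : ℂ) := rfl

lemma quad_T {x : ℝ} (h1 : 1 < x) (v : Fin 4 → ℝ) :
    3 * ∑ i, v i ^ 2 ≤ ∑ i, ∑ j, v i * TT x i j * v j := by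
  have e : ∑ i, ∑ j, v i * TT x i j * v j = 4 * x ^ 3 * v 0 ^ 2 + 2 * x * v 0 * v 1 +
      4 * x ^ 4 * v 1 ^ 2 + 4 * x ^ 5 * v 2 ^ 2 + 2 * x ^ 2 * v 2 * v 3 + 4 * x ^ 6 * v 3 ^ 2 := by
    simp [Fin.sum_univ_four, TT]
    ring
  rw [e, Fin.sum_univ_four]
  have a1 : 1 ≤ x ^ 3 := one_le_pow₀ h1.le
  have a2 : x ≤ x ^ 3 := by nlinarith [mul_pos (show 0 < x by linarith) (show 0 < x by linarith)]
  have a3 : x ^ 3 ≤ x ^ 4 := pow_le_pow_right₀ h1.le (by norm_num)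
  have a4 : x ^ 3 ≤ x ^ 5 := pow_le_pow_right₀ h1.le (by norm_num)
  have a5 : x ^ 3 ≤ x ^ 6 := pow_le_pow_right₀ h1.le (by norm_num)
  have a6 : x ^ 2 ≤ x ^ 3 := pow_le_pow_right₀ h1.le (by norm_num)
  have b1 : 0 ≤ x * (v 0 + v 1) ^ 2 := by positivity
  have b2 : 0 ≤ x ^ 2 * (v 2 + v 3) ^ 2 := by positivity
  have c0 : (3 + x) * v 0 ^ 2 ≤ 4 * x ^ 3 * v 0 ^ 2 :=
    mul_le_mul_of_nonneg_right (by linarith) (sq_nonneg _)
  have c1 : (3 + x) * v 1 ^ 2 ≤ 4 * x ^ 4 * v 1 ^ 2 :=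
    mul_le_mul_of_nonneg_right (by linarith) (sq_nonneg _)
  have c2 : (3 + x ^ 2) * v 2 ^ 2 ≤ 4 * x ^ 5 * v 2 ^ 2 :=
    mul_le_mul_of_nonneg_right (by linarith) (sq_nonneg _)
  have c3 : (3 + x ^ 2) * v 3 ^ 2 ≤ 4 * x ^ 6 * v 3 ^ 2 :=
    mul_le_mul_of_nonneg_right (by linarith) (sq_nonneg _)
  nlinarith

lemma near {x : ℝ} {τ : Sym2 (Fin 4) → ℂ} (h : τ ∈ Metric.ball (tau0 x) (1 / 8)) (i j : Fin 4) :
    |(τ s(i, j)).im - TT x i j| < 1 / 8 ∧ |(τ s(i, j)).re| < 1 / 8 := by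
  have h1 : ‖τ s(i, j) - tau0 x s(i, j)‖ < 1 / 8 := by
    rw [Metric.mem_ball, dist_pi_lt_iff (by norm_num)] at h
    have := h s(i, j)
    rwa [dist_eq_norm] at this
  rw [tau0_mk] at h1
  constructor
  · refine lt_of_le_of_lt ?_ h1
    refine le_trans (le_of_eq ?_) (Complex.abs_im_le_norm _)
    simp
  · refine lt_of_le_of_lt ?_ h1
    refine le_trans (le_of_eq ?_) (Complex.abs_re_le_norm _)
    simp

lemma quad_ball {x : ℝ} (h1 : 1 < x) {τ : Sym2 (Fin 4) → ℂ}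
    (h : τ ∈ Metric.ball (tau0 x) (1 / 8)) (v : Fin 4 → ℝ) :
    2 * ∑ i, v i ^ 2 ≤ ∑ i, ∑ j, v i * (τ s(i, j)).im * v j := by
  have e : ∑ i, ∑ j, v i * (τ s(i, j)).im * v j = ∑ i, ∑ j, v i * TT x i j * v j +
      ∑ i, ∑ j, v i * ((τ s(i, j)).im - TT x i j) * v j := by
    rw [← Finset.sum_add_distrib]
    refine Finset.sum_congr rfl fun i _ => ?_
    rw [← Finset.sum_add_distrib]
    refine Finset.sum_congr rfl fun j _ => ?_
    ring
  have h2 : ∑ i : Fin 4, ∑ j : Fin 4, -(1 / 16) * (v i ^ 2 + v j ^ 2) ≤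
      ∑ i, ∑ j, v i * ((τ s(i, j)).im - TT x i j) * v j := by
    refine Finset.sum_le_sum fun i _ => Finset.sum_le_sum fun j _ => ?_
    obtain ⟨h3, h4⟩ := abs_lt.1 (near h i j).1
    set t := (τ s(i, j)).im - TT x i j
    have k1 : |v i * t * v j| ≤ (1 / 8) * (|v i| * |v j|) := by
      rw [abs_mul, abs_mul]
      have : |t| ≤ 1 / 8 := abs_le.2 ⟨by linarith, by linarith⟩
      nlinarith [mul_nonneg (abs_nonneg (v i)) (abs_nonneg (v j))]
    have k2 : |v i| * |v j| ≤ (v i ^ 2 + v j ^ 2) / 2 := by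
      nlinarith [sq_nonneg (|v i| - |v j|), sq_abs (v i), sq_abs (v j)]
    have := (abs_le.1 k1).1
    linarith
  have h3 : ∑ i : Fin 4, ∑ j : Fin 4, -(1 / 16) * (v i ^ 2 + v j ^ 2) =
      -(1 / 2) * ∑ i, v i ^ 2 := by
    simp [Fin.sum_univ_four]
    ring
  have h4 := quad_T h1 v
  have h5 : 0 ≤ ∑ i, v i ^ 2 := Finset.sum_nonneg fun i _ => sq_nonneg _
  rw [e]
  linarith


/-! ### The theta series -/

lemma norm_term {g : ℕ} (τ : Sym2 (Fin g) → ℂ) (m : Fin g → ℝ) :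
    ‖Complex.exp (Real.pi * Complex.I *
      ∑ i, ∑ j, (m i : ℂ) * (2 * τ s(i, j)) * (m j : ℂ))‖ =
      Real.exp (-(2 * Real.pi * ∑ i, ∑ j, m i * (τ s(i, j)).im * m j)) := by
  rw [Complex.norm_exp]
  congr 1
  have h : (∑ i, ∑ j, (m i : ℂ) * (2 * τ s(i, j)) * (m j : ℂ)).im =
      2 * ∑ i, ∑ j, m i * (τ s(i, j)).im * m j := by
    rw [Complex.im_sum, Finset.mul_sum]
    refine Finset.sum_congr rfl fun i _ => ?_
    rw [Complex.im_sum, Finset.mul_sum]
    refine Finset.sum_congr rfl fun j _ => ?_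
    simp
    ring
  rw [mul_assoc, Complex.re_ofReal_mul, Complex.I_mul_re, h]
  ring

lemma half_sq (n : ℤ) (e : Fin 2) : |(n : ℝ)| ≤ 4 * ((n : ℝ) + ((e : ℕ) : ℝ) / 2) ^ 2 := by
  have h0 : |(n : ℝ)| = ((|n| : ℤ) : ℝ) := by simp
  rw [h0]
  fin_cases e
  · have : |n| ≤ n ^ 2 := by
      rcases abs_cases n with ⟨h, h'⟩ | ⟨h, h'⟩ <;> rw [h] <;> nlinarith
    have h2 : ((|n| : ℤ) : ℝ) ≤ ((n ^ 2 : ℤ) : ℝ) := by exact_mod_cast this
    push_cast at h2 ⊢
    simp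
    nlinarith [sq_nonneg (n : ℝ)]
  · have : |n| ≤ (2 * n + 1) ^ 2 := by
      rcases abs_cases n with ⟨h, h'⟩ | ⟨h, h'⟩ <;> rw [h] <;> nlinarith
    have h2 : ((|n| : ℤ) : ℝ) ≤ (((2 * n + 1) ^ 2 : ℤ) : ℝ) := by exact_mod_cast this
    push_cast at h2 ⊢
    simp
    nlinarith

lemma term_bound {x : ℝ} (h1 : 1 < x) {τ : Sym2 (Fin 4) → ℂ}
    (h : τ ∈ Metric.ball (tau0 x) (1 / 8)) (e : Fin 4 → Fin 2) (n : Fin 4 → ℤ) :
    ‖Complex.exp (Real.pi * Complex.I * ∑ i, ∑ j, ((n i : ℂ) + ((e i : ℕ) : ℂ) / 2) *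
      (2 * τ s(i, j)) * ((n j : ℂ) + ((e j : ℕ) : ℂ) / 2))‖ ≤
      Real.exp (-∑ i, |(n i : ℝ)|) := by
  have h2 := norm_term τ (fun i => (n i : ℝ) + ((e i : ℕ) : ℝ) / 2)
  push_cast at h2
  rw [h2, Real.exp_le_exp]
  have h3 := quad_ball h1 h (fun i => (n i : ℝ) + ((e i : ℕ) : ℝ) / 2)
  have h4 : ∑ i, |(n i : ℝ)| ≤ ∑ i, 4 * ((n i : ℝ) + ((e i : ℕ) : ℝ) / 2) ^ 2 :=
    Finset.sum_le_sum fun i _ => half_sq _ _
  rw [← Finset.mul_sum] at h4
  have h5 : 0 ≤ ∑ i, |(n i : ℝ)| := Finset.sum_nonneg fun i _ => abs_nonneg _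
  have h6 := Real.pi_gt_three
  nlinarith

/-- differentiability of the theta constants along complex lines -/
lemma theta_line_diff {x : ℝ} (h1 : 1 < x) (w : Sym2 (Fin 4) → ℂ) (e : Fin 4 → Fin 2) :
    DifferentiableOn ℂ (fun s : ℂ => Theta (tau0 x + s • w) e)
      ((fun s : ℂ => tau0 x + s • w) ⁻¹' Metric.ball (tau0 x) (1 / 8)) := by
  have hc : Continuous (fun s : ℂ => tau0 x + s • w) := by fun_prop
  refine Complex.differentiableOn_tsum_of_summable_norm summable_exp_pi (fun n => ?_)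
    (hc.isOpen_preimage _ Metric.isOpen_ball) (fun n s hs => term_bound h1 hs e n)
  simp only [Pi.add_apply, Pi.smul_apply, smul_eq_mul]
  fun_prop

/-! ### Even and odd coordinates -/

/-- The signs `1, 1, -1, -1`. -/
def sg (i : Fin 4) : ℤ := if i < 2 then 1 else -1

lemma sg_sq (i : Fin 4) : sg i * sg i = 1 := by
  unfold sg
  split_ifs <;> norm_num

/-- The action of `diag(1, 1, -1, -1)` on symmetric matrices. -/
def sig (τ : Sym2 (Fin 4) → ℂ) : Sym2 (Fin 4) → ℂ :=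
  Sym2.lift ⟨fun i j => (sg i : ℂ) * (sg j : ℂ) * τ s(i, j), fun i j => by
    show (sg i : ℂ) * (sg j : ℂ) * τ s(i, j) = (sg j : ℂ) * (sg i : ℂ) * τ s(j, i)
    rw [Sym2.eq_swap]
    ring⟩

lemma sig_mk (τ : Sym2 (Fin 4) → ℂ) (i j : Fin 4) :
    sig τ s(i, j) = (sg i : ℂ) * (sg j : ℂ) * τ s(i, j) := rfl

/-- Reindexing of the lattice. -/
def shift (e : Fin 4 → Fin 2) : (Fin 4 → ℤ) ≃ (Fin 4 → ℤ) where
  toFun n i := if i < 2 then n i else -n i - ((e i : ℕ) : ℤ)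
  invFun n i := if i < 2 then n i else -n i - ((e i : ℕ) : ℤ)
  left_inv n := by
    funext i
    by_cases h : i < 2 <;> simp [h]
  right_inv n := by
    funext i
    by_cases h : i < 2 <;> simp [h]

lemma shift_spec (e : Fin 4 → Fin 2) (n : Fin 4 → ℤ) (i : Fin 4) :
    (((shift e n) i : ℤ) : ℂ) + ((e i : ℕ) : ℂ) / 2 =
      (sg i : ℂ) * ((n i : ℂ) + ((e i : ℕ) : ℂ) / 2) := by
  by_cases h : i < 2
  · simp [shift, sg, h]
  · simp [shift, sg, h]
    ring

lemma theta_sig (τ : Sym2 (Fin 4) → ℂ) : Theta (sig τ) = Theta τ := by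
  funext e
  unfold Theta
  rw [← (shift e).tsum_eq (fun n : Fin 4 → ℤ => Complex.exp (Real.pi * Complex.I *
    ∑ i, ∑ j, ((n i : ℂ) + ((e i : ℕ) : ℂ) / 2) * (2 * τ s(i, j)) *
      ((n j : ℂ) + ((e j : ℕ) : ℂ) / 2)))]
  refine tsum_congr fun n => ?_
  congr 2
  refine Finset.sum_congr rfl fun i _ => Finset.sum_congr rfl fun j _ => ?_
  rw [shift_spec, shift_spec, sig_mk]
  ring


/-! ### Asymptotics along lines -/

lemma line_open (x : ℝ) (w : Sym2 (Fin 4) → ℂ) :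
    IsOpen ((fun s : ℂ => tau0 x + s • w) ⁻¹' Metric.ball (tau0 x) (1 / 8)) := by
  have hc : Continuous (fun s : ℂ => tau0 x + s • w) := by fun_prop
  exact hc.isOpen_preimage _ Metric.isOpen_ball

lemma line_zero_mem (x : ℝ) (w : Sym2 (Fin 4) → ℂ) :
    (0 : ℂ) ∈ ((fun s : ℂ => tau0 x + s • w) ⁻¹' Metric.ball (tau0 x) (1 / 8)) := by
  simp

lemma lin_bound {x : ℝ} (h1 : 1 < x) (w : Sym2 (Fin 4) → ℂ) :
    (fun s : ℂ => Theta (tau0 x + s • w) - Theta (tau0 x)) =O[𝓝 0] (fun s : ℂ => s) := by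
  rw [Asymptotics.isBigO_pi]
  intro e
  have h := ((theta_line_diff h1 w e).differentiableAt
    ((line_open x w).mem_nhds (line_zero_mem x w))).isBigO_sub
  simpa using h

lemma quad_bound {x : ℝ} (h1 : 1 < x) (w : Sym2 (Fin 4) → ℂ)
    (hw : ∀ s : ℂ, sig (tau0 x + s • w) = tau0 x + (-s) • w) :
    (fun s : ℂ => Theta (tau0 x + s • w) - Theta (tau0 x)) =O[𝓝 0] (fun s : ℂ => s ^ 2) := by
  rw [Asymptotics.isBigO_pi]
  intro e
  set g : ℂ → ℂ := fun s => Theta (tau0 x + s • w) e with hg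
  have hU := line_open x w
  have h0 := line_zero_mem x w
  have hd : DifferentiableOn ℂ g _ := theta_line_diff h1 w e
  have heven : ∀ s, g (-s) = g s := by
    intro s
    show Theta (tau0 x + (-s) • w) e = Theta (tau0 x + s • w) e
    rw [← hw, theta_sig]
  have hda : DifferentiableAt ℂ g 0 := hd.differentiableAt (hU.mem_nhds h0)
  have hder : deriv g 0 = 0 := by
    have h2 : HasDerivAt g (deriv g 0) (-0) := by
      rw [neg_zero]
      exact hda.hasDerivAt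
    have h3 : HasDerivAt (fun s => g (-s)) (deriv g 0 * (-1)) 0 :=
      h2.comp 0 (hasDerivAt_neg 0)
    have h4 : (fun s => g (-s)) = g := funext heven
    rw [h4] at h3
    have h5 := h3.unique hda.hasDerivAt
    linear_combination (-1 / 2) * h5
  have hds : DifferentiableAt ℂ (dslope g 0) 0 :=
    ((Complex.differentiableOn_dslope (hU.mem_nhds h0)).2 hd).differentiableAt (hU.mem_nhds h0)
  have h6 : (fun s : ℂ => dslope g 0 s) =O[𝓝 0] (fun s : ℂ => s) := by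
    have := hds.isBigO_sub
    simpa [dslope_same, hder] using this
  have h7 : (fun s : ℂ => s * dslope g 0 s) =O[𝓝 0] (fun s : ℂ => s * s) :=
    (Asymptotics.isBigO_refl _ _).mul h6
  have h8 : ∀ s : ℂ, s * dslope g 0 s = g s - g 0 := by
    intro s
    have := sub_smul_dslope g 0 s
    simpa using this
  have h9 : (fun s : ℂ => Theta (tau0 x + s • w) e - Theta (tau0 x) e) =O[𝓝 0]
      (fun s : ℂ => s ^ 2) := by
    refine (h7.congr (fun s => ?_) (fun s => (sq s).symm))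
    rw [h8]
    simp [hg]
  exact h9

lemma theta_ne {x : ℝ} (h1 : 1 < x) : Theta (tau0 x) ≠ 0 := by
  intro h
  have h2 := congrFun h 0
  have h3 : Theta (tau0 x) 0 = ((∑' n : Fin 4 → ℤ,
      Real.exp (-(2 * Real.pi * ∑ i, ∑ j, (n i : ℝ) * TT x i j * (n j : ℝ))) : ℝ) : ℂ) := by
    unfold Theta
    rw [Complex.ofReal_tsum]
    refine tsum_congr fun n => ?_
    rw [Complex.ofReal_exp]
    congr 1
    push_cast
    rw [Finset.mul_sum, Finset.mul_sum, ← Finset.sum_neg_distrib]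
    refine Finset.sum_congr rfl fun i _ => ?_
    rw [Finset.mul_sum, Finset.mul_sum, ← Finset.sum_neg_distrib]
    refine Finset.sum_congr rfl fun j _ => ?_
    rw [tau0_mk]
    simp
    ring_nf
    simp
  rw [h3] at h2
  have hs : Summable (fun n : Fin 4 → ℤ =>
      Real.exp (-(2 * Real.pi * ∑ i, ∑ j, (n i : ℝ) * TT x i j * (n j : ℝ)))) := by
    refine Summable.of_nonneg_of_le (fun n => (Real.exp_pos _).le) (fun n => ?_) summable_exp_pi
    have h4 := term_bound h1 (Metric.mem_ball_self (by norm_num : (0 : ℝ) < 1 / 8)) 0 n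
    have h5 := norm_term (tau0 x) (fun i => (n i : ℝ))
    push_cast at h5
    simp only [Pi.zero_apply, Fin.val_zero, Nat.cast_zero, zero_div, add_zero] at h4
    rw [h5] at h4
    simpa [tau0_mk] using h4
  have h4 : 0 < ∑' n : Fin 4 → ℤ,
      Real.exp (-(2 * Real.pi * ∑ i, ∑ j, (n i : ℝ) * TT x i j * (n j : ℝ))) :=
    hs.tsum_pos (fun n => (Real.exp_pos _).le) 0 (Real.exp_pos _)
  rw [Pi.zero_apply, Complex.ofReal_eq_zero] at h2
  exact h4.ne' h2

/-! ### Linear algebra -/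

lemma dependent {I : Type} [Fintype I] (hI : Fintype.card I = 16)
    (y : (Fin 4 → Fin 2) → ℂ) (hy : y ≠ 0)
    (D : I → ((Fin 4 → Fin 2) → ℂ) →L[ℂ] ℂ) (hD : ∀ i, D i y = 0) :
    ∃ c : I → ℂ, ∑ i, c i • D i = 0 ∧ ∃ i, c i ≠ 0 := by
  have h : ¬ LinearIndependent ℂ (fun i => ((D i : ((Fin 4 → Fin 2) → ℂ) →ₗ[ℂ] ℂ) :
      Module.Dual ℂ ((Fin 4 → Fin 2) → ℂ))) := by
    intro h
    have hc : Fintype.card I = Module.finrank ℂ (Module.Dual ℂ ((Fin 4 → Fin 2) → ℂ)) := by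
      rw [Subspace.dual_finrank_eq, Module.finrank_pi, hI]
      simp
    have hs := h.span_eq_top_of_card_eq_finrank' hc
    obtain ⟨e, he⟩ := Function.ne_iff.1 hy
    have hp : (LinearMap.proj e : Module.Dual ℂ ((Fin 4 → Fin 2) → ℂ)) ∈
        Submodule.span ℂ (Set.range (fun i => ((D i : ((Fin 4 → Fin 2) → ℂ) →ₗ[ℂ] ℂ) :
      Module.Dual ℂ ((Fin 4 → Fin 2) → ℂ)))) := by
      rw [hs]
      trivial
    have hall : ∀ φ ∈ Submodule.span ℂ (Set.range (fun i => ((D i : ((Fin 4 → Fin 2) → ℂ) →ₗ[ℂ] ℂ) :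
      Module.Dual ℂ ((Fin 4 → Fin 2) → ℂ)))), φ y = 0 := by
      intro φ hφ
      induction hφ using Submodule.span_induction with
      | mem φ h =>
        obtain ⟨i, rfl⟩ := h
        exact hD i
      | zero => simp
      | add a b _ _ ha hb => simp [ha, hb]
      | smul c a _ ha => simp [ha]
    have := hall _ hp
    exact he (by simpa using this)
  rw [Fintype.not_linearIndependent_iff] at h
  obtain ⟨c, hc, i, hi⟩ := h
  refine ⟨c, ?_, i, hi⟩
  ext z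
  have := congrArg (fun φ : Module.Dual ℂ ((Fin 4 → Fin 2) → ℂ) => φ z) hc
  simpa using this

lemma euler {W : Set ((Fin 4 → Fin 2) → ℂ)} {F : ((Fin 4 → Fin 2) → ℂ) → ℂ}
    (hW : IsOpenCone W) {y : (Fin 4 → Fin 2) → ℂ} (hy : y ∈ W) (hF : IsHolomorphicOnCone W F) :
    fderiv ℂ F y y = 0 := by
  have h1 : HasFDerivAt F (fderiv ℂ F y) ((1 : ℂ) • y) := by
    rw [one_smul]
    exact (hF.1.differentiableAt (hW.1.mem_nhds hy)).hasFDerivAt
  have h2 : HasDerivAt (fun c : ℂ => c • y) y 1 := by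
    simpa using (hasDerivAt_id (1 : ℂ)).smul_const y
  have h3 : HasDerivAt (fun c : ℂ => F (c • y)) (fderiv ℂ F y y) 1 := h1.comp_hasDerivAt 1 h2
  have h4 : HasDerivAt (fun _ : ℂ => F y) 0 1 := hasDerivAt_const _ _
  have h5 : (fun c : ℂ => F (c • y)) =ᶠ[𝓝 1] fun _ : ℂ => F y := by
    filter_upwards [isOpen_ne.mem_nhds (one_ne_zero : (1 : ℂ) ≠ 0)] with c hc
    exact hF.2 y hy c hc
  exact h3.unique (h4.congr_of_eventuallyEq h5)

/-! ### The sixteen functions -/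

/-- The even coordinates. -/
def ev : Fin 6 → Sym2 (Fin 4) := ![s(0, 0), s(0, 1), s(1, 1), s(2, 2), s(2, 3), s(3, 3)]

/-- The odd coordinates. -/
def od : Fin 4 → Sym2 (Fin 4) := ![s(0, 2), s(0, 3), s(1, 2), s(1, 3)]

/-- First index of a pair. -/
def pa : Fin 10 → Fin 4 := ![0, 0, 0, 0, 1, 1, 1, 2, 2, 3]

/-- Second index of a pair. -/
def pb : Fin 10 → Fin 4 := ![0, 1, 2, 3, 1, 2, 3, 2, 3, 3]

/-- Six linear functions and ten quadratic ones, invariant under `sig`. -/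
def ff : Fin 6 ⊕ Fin 10 → (Sym2 (Fin 4) → ℂ) → ℂ
  | Sum.inl k, τ => τ (ev k)
  | Sum.inr p, τ => τ (od (pa p)) * τ (od (pb p))

lemma ev_inj : Function.Injective ev := by decide

lemma od_inj : Function.Injective od := by decide

lemma ev_ne_od (k : Fin 6) (a : Fin 4) : ev k ≠ od a := by
  revert k a
  decide

lemma tau0_od (x : ℝ) (a : Fin 4) : tau0 x (od a) = 0 := by
  fin_cases a <;> simp [od, tau0_mk, TT]

/-- `s ↦ Theta (tau0 + s w)` along a direction, composed with a function with zero derivative. -/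
lemma comp_little {x : ℝ} (h1 : 1 < x) (w : Sym2 (Fin 4) → ℂ) (c : Fin 6 ⊕ Fin 10 → ℂ)
    (W : Fin 6 ⊕ Fin 10 → Set ((Fin 4 → Fin 2) → ℂ))
    (F : Fin 6 ⊕ Fin 10 → ((Fin 4 → Fin 2) → ℂ) → ℂ)
    (hW : ∀ i, IsOpenCone (W i)) (hy : ∀ i, Theta (tau0 x) ∈ W i)
    (hF : ∀ i, IsHolomorphicOnCone (W i) (F i))
    (hfe : ∀ i, ∀ᶠ τ in 𝓝 (tau0 x), ff i τ = F i (Theta τ))
    (hc : ∑ i, c i • fderiv ℂ (F i) (Theta (tau0 x)) = 0) :
    (fun s : ℂ => ∑ i, c i * (ff i (tau0 x + s • w) - ff i (tau0 x))) =o[𝓝 0]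
      (fun s : ℂ => Theta (tau0 x + s • w) - Theta (tau0 x)) := by
  have hG : HasFDerivAt (fun z => ∑ i, c i • F i z)
      (∑ i, c i • fderiv ℂ (F i) (Theta (tau0 x))) (Theta (tau0 x)) :=
    HasFDerivAt.fun_sum fun i _ =>
      (((hF i).1.differentiableAt ((hW i).1.mem_nhds (hy i))).hasFDerivAt).const_smul (c i)
  rw [hc] at hG
  have h2 := hG.isLittleO
  simp only [_root_.zero_apply, sub_zero] at h2
  have ht : Tendsto (fun s : ℂ => Theta (tau0 x + s • w)) (𝓝 0) (𝓝 (Theta (tau0 x))) := by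
    have hca : ContinuousAt (fun s : ℂ => Theta (tau0 x + s • w)) 0 := by
      rw [continuousAt_pi]
      intro e
      exact ((theta_line_diff h1 w e).differentiableAt
        ((line_open x w).mem_nhds (line_zero_mem x w))).continuousAt
    have := hca.tendsto
    simpa using this
  have h3 := h2.comp_tendsto ht
  refine h3.congr' ?_ (Eventually.of_forall fun s => rfl)
  have hl : Tendsto (fun s : ℂ => tau0 x + s • w) (𝓝 0) (𝓝 (tau0 x)) := by
    have hcc : Continuous (fun s : ℂ => tau0 x + s • w) := by fun_prop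
    have := hcc.tendsto 0
    simpa using this
  have h4 : ∀ᶠ s : ℂ in 𝓝 0, ∀ i, ff i (tau0 x + s • w) = F i (Theta (tau0 x + s • w)) :=
    eventually_all.2 fun i => hl.eventually (hfe i)
  filter_upwards [h4] with s hs
  simp only [Function.comp_apply, smul_eq_mul]
  rw [← Finset.sum_sub_distrib]
  refine Finset.sum_congr rfl fun i _ => ?_
  rw [hs i, (hfe i).self_of_nhds]
  ring


/-- An odd direction. -/
def wv (v : Fin 4 → ℂ) : Sym2 (Fin 4) → ℂ := fun q => ∑ a, if q = od a then v a else 0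

lemma wv_od (v : Fin 4 → ℂ) (a : Fin 4) : wv v (od a) = v a := by
  unfold wv
  simp [od_inj.eq_iff]

lemma wv_ev (v : Fin 4 → ℂ) (k : Fin 6) : wv v (ev k) = 0 := by
  unfold wv
  simp [ev_ne_od]

lemma wv_sig (x : ℝ) (v : Fin 4 → ℂ) (s : ℂ) :
    sig (tau0 x + s • wv v) = tau0 x + (-s) • wv v := by
  funext q
  induction q using Sym2.ind with
  | _ i j =>
    rw [sig_mk]
    simp only [Pi.add_apply, Pi.smul_apply, smul_eq_mul, tau0_mk, wv, od, Fin.sum_univ_four]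
    fin_cases i <;> fin_cases j <;> simp [sg, TT]

lemma zero_of_little {c : ℂ} {k : ℕ}
    (h : (fun s : ℂ => c * s ^ k) =o[𝓝 0] (fun s : ℂ => s ^ k)) : c = 0 := by
  by_contra hc
  rw [Asymptotics.isLittleO_const_mul_left_iff hc] at h
  refine Asymptotics.isLittleO_irrefl' ?_ h
  have h2 : ∃ᶠ s : ℂ in 𝓝[≠] 0, ‖s ^ k‖ ≠ 0 := by
    refine Eventually.frequently ?_
    filter_upwards [self_mem_nhdsWithin] with s hs
    have : s ≠ 0 := hs
    simp [this]
  exact h2.filter_mono nhdsWithin_le_nhds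

theorem bad_function {x : ℝ} (h1 : 1 < x) :
    ∃ i, ∀ (W : Set ((Fin 4 → Fin 2) → ℂ)) (F : ((Fin 4 → Fin 2) → ℂ) → ℂ),
      IsOpenCone W → Theta (tau0 x) ∈ W → IsHolomorphicOnCone W F →
      ¬ ∀ᶠ τ in 𝓝 (tau0 x), ff i τ = F (Theta τ) := by
  by_contra hcon
  push Not at hcon
  choose W F hW hy hF hfe using hcon
  obtain ⟨c, hc, hne⟩ := dependent (I := Fin 6 ⊕ Fin 10) (by simp) (Theta (tau0 x)) (theta_ne h1)
    (fun i => fderiv ℂ (F i) (Theta (tau0 x))) (fun i => euler (hW i) (hy i) (hF i))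
  have key := fun w => comp_little h1 w c W F hW hy hF hfe hc
  have hodd : ∀ v : Fin 4 → ℂ, ∑ p, c (Sum.inr p) * (v (pa p) * v (pb p)) = 0 := by
    intro v
    have h2 := (key (wv v)).trans_isBigO (quad_bound h1 (wv v) (wv_sig x v))
    refine zero_of_little (k := 2) (h2.congr (fun s => ?_) (fun s => rfl))
    rw [Fintype.sum_sum_type, Finset.sum_mul]
    have h3 : ∑ k, c (Sum.inl k) * (ff (Sum.inl k) (tau0 x + s • wv v) -
        ff (Sum.inl k) (tau0 x)) = 0 := by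
      refine Finset.sum_eq_zero fun k _ => ?_
      simp [ff, wv_ev]
    rw [h3, zero_add]
    refine Finset.sum_congr rfl fun p _ => ?_
    simp only [ff, Pi.add_apply, Pi.smul_apply, smul_eq_mul, wv_od, tau0_od]
    ring
  have heven : ∀ k, c (Sum.inl k) = 0 := by
    intro k
    have h2 := (key (Pi.single (ev k) 1)).trans_isBigO (lin_bound h1 _)
    refine zero_of_little (k := 1) (h2.congr (fun s => ?_) (fun s => (pow_one s).symm))
    rw [Fintype.sum_sum_type]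
    have h3 : ∑ p, c (Sum.inr p) * (ff (Sum.inr p) (tau0 x + s • Pi.single (ev k) (1 : ℂ)) -
        ff (Sum.inr p) (tau0 x)) = 0 := by
      refine Finset.sum_eq_zero fun p _ => ?_
      simp [ff, tau0_od, (ev_ne_od k _).symm]
    rw [h3, add_zero, Finset.sum_eq_single k]
    · simp [ff]
    · intro k' _ hk
      have : ev k' ≠ ev k := fun h => hk (ev_inj h)
      simp [ff, this]
    · simp
  have hA : ∀ a : Fin 4, ∑ p, c (Sum.inr p) * ((Pi.single a 1 : Fin 4 → ℂ) (pa p) *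
      (Pi.single a 1 : Fin 4 → ℂ) (pb p)) = 0 := fun a => hodd _
  have hB : ∀ a b : Fin 4, ∑ p, c (Sum.inr p) * ((Pi.single a 1 + Pi.single b 1 : Fin 4 → ℂ) (pa p) *
      (Pi.single a 1 + Pi.single b 1 : Fin 4 → ℂ) (pb p)) = 0 := fun a b => hodd _
  have hz : ∀ p, c (Sum.inr p) = 0 := by
    have a0 := hA 0
    have a1 := hA 1
    have a2 := hA 2
    have a3 := hA 3
    have b01 := hB 0 1
    have b02 := hB 0 2
    have b03 := hB 0 3
    have b12 := hB 1 2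
    have b13 := hB 1 3
    have b23 := hB 2 3
    simp only [Fin.sum_univ_succ, pa, pb] at a0 a1 a2 a3 b01 b02 b03 b12 b13 b23
    simp at a0 a1 a2 a3 b01 b02 b03 b12 b13 b23
    simp only [a0, a1, a2, a3, zero_add, add_zero] at b01 b02 b03 b12 b13 b23
    intro p
    fin_cases p <;> assumption
  obtain ⟨i, hi⟩ := hne
  rcases i with k | p
  · exact hi (heven k)
  · exact hi (hz p)


/-! ### The group action near `tau0` -/

/-- The relation `τ' (c τ + d) = a τ + b`. -/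
def Rel (γ : Matrix (Fin 4 ⊕ Fin 4) (Fin 4 ⊕ Fin 4) ℤ) (τ τ' : Sym2 (Fin 4) → ℂ) : Prop :=
  mat τ' * (toC γ.toBlocks₂₁ * mat τ + toC γ.toBlocks₂₂) =
    toC γ.toBlocks₁₁ * mat τ + toC γ.toBlocks₁₂

lemma rel_of_eq {x : ℝ} (h1 : 1 < x) {γ : Matrix (Fin 4 ⊕ Fin 4) (Fin 4 ⊕ Fin 4) ℤ}
    {τ τ' : Sym2 (Fin 4) → ℂ} (hτ' : τ' ∈ Metric.ball (tau0 x) (1 / 8))
    (h : mat τ' = (toC γ.toBlocks₁₁ * mat τ + toC γ.toBlocks₁₂) *
      (toC γ.toBlocks₂₁ * mat τ + toC γ.toBlocks₂₂)⁻¹) : Rel γ τ τ' := by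
  unfold Rel
  by_cases hu : IsUnit (toC γ.toBlocks₂₁ * mat τ + toC γ.toBlocks₂₂).det
  · rw [h, Matrix.nonsing_inv_mul_cancel_right _ _ hu]
  · exfalso
    rw [Matrix.nonsing_inv_apply_not_isUnit _ hu, mul_zero] at h
    have h2 : τ' s(0, 0) = 0 := congrFun (congrFun h 0) 0
    have h3 := (near hτ' 0 0).1
    rw [h2] at h3
    have h4 : TT x 0 0 = 4 * x ^ 3 := rfl
    have h5 : 1 ≤ x ^ 3 := one_le_pow₀ h1.le
    rw [h4, Complex.zero_im, abs_lt] at h3
    linarith [h3.1]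

lemma symp {γ : Matrix (Fin 4 ⊕ Fin 4) (Fin 4 ⊕ Fin 4) ℤ}
    (h : γ ∈ Matrix.symplecticGroup (Fin 4) ℤ) :
    γ.toBlocks₂₁.transpose * γ.toBlocks₁₁ - γ.toBlocks₁₁.transpose * γ.toBlocks₂₁ = 0 ∧
    γ.toBlocks₂₁.transpose * γ.toBlocks₁₂ - γ.toBlocks₁₁.transpose * γ.toBlocks₂₂ = -1 ∧
    γ.toBlocks₂₂.transpose * γ.toBlocks₁₁ - γ.toBlocks₁₂.transpose * γ.toBlocks₂₁ = 1 ∧
    γ.toBlocks₂₂.transpose * γ.toBlocks₁₂ - γ.toBlocks₁₂.transpose * γ.toBlocks₂₂ = 0 := by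
  rw [SymplecticGroup.mem_iff'] at h
  rw [← Matrix.fromBlocks_toBlocks γ] at h
  rw [Matrix.J, Matrix.fromBlocks_transpose, Matrix.fromBlocks_multiply,
    Matrix.fromBlocks_multiply, Matrix.fromBlocks_inj] at h
  obtain ⟨e1, e2, e3, e4⟩ := h
  simp only [Matrix.mul_zero, Matrix.mul_one, Matrix.mul_neg, zero_add, add_zero,
    Matrix.neg_mul] at e1 e2 e3 e4
  refine ⟨?_, ?_, ?_, ?_⟩
  · rw [sub_eq_add_neg]; exact e1
  · rw [sub_eq_add_neg]; exact e2
  · rw [sub_eq_add_neg]; exact e3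
  · rw [sub_eq_add_neg]; exact e4

lemma toC_mul (a b : Matrix (Fin 4) (Fin 4) ℤ) : toC a * toC b = toC (a * b) := by
  unfold toC
  exact (Matrix.map_mul (f := Int.castRingHom ℂ)).symm

lemma toC_sub (a b : Matrix (Fin 4) (Fin 4) ℤ) : toC a - toC b = toC (a - b) := by
  ext i j
  simp [toC]

lemma toC_conj (a : Matrix (Fin 4) (Fin 4) ℤ) : (toC a).conjTranspose = toC a.transpose := by
  ext i j
  simp [toC]

lemma toC_zero : toC (0 : Matrix (Fin 4) (Fin 4) ℤ) = 0 := by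
  ext i j
  simp [toC]

lemma toC_one : toC (1 : Matrix (Fin 4) (Fin 4) ℤ) = 1 := by
  ext i j
  by_cases h : i = j
  · subst h; simp [toC]
  · simp [toC, Matrix.one_apply_ne h]

lemma toC_neg (a : Matrix (Fin 4) (Fin 4) ℤ) : toC (-a) = -toC a := by
  ext i j
  simp [toC]

lemma herm {γ : Matrix (Fin 4 ⊕ Fin 4) (Fin 4 ⊕ Fin 4) ℤ}
    (h : γ ∈ Matrix.symplecticGroup (Fin 4) ℤ) {τ τ' : Sym2 (Fin 4) → ℂ} (hR : Rel γ τ τ') :
    (toC γ.toBlocks₂₁ * mat τ + toC γ.toBlocks₂₂).conjTranspose *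
      (mat τ' - (mat τ').conjTranspose) * (toC γ.toBlocks₂₁ * mat τ + toC γ.toBlocks₂₂) =
      mat τ - (mat τ).conjTranspose := by
  obtain ⟨e1, e2, e3, e4⟩ := symp h
  have f1 := congrArg toC e1
  have f2 := congrArg toC e2
  have f3 := congrArg toC e3
  have f4 := congrArg toC e4
  rw [← toC_sub, ← toC_mul, ← toC_mul, ← toC_conj, ← toC_conj, toC_zero] at f1 f4
  rw [← toC_sub, ← toC_mul, ← toC_mul, ← toC_conj, ← toC_conj, toC_neg, toC_one] at f2
  rw [← toC_sub, ← toC_mul, ← toC_mul, ← toC_conj, ← toC_conj, toC_one] at f3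
  unfold Rel at hR
  set a := toC γ.toBlocks₁₁
  set b := toC γ.toBlocks₁₂
  set c := toC γ.toBlocks₂₁
  set d := toC γ.toBlocks₂₂
  set Z := mat τ
  set Z' := mat τ'
  have s1 : (c * Z + d).conjTranspose * (Z' - Z'.conjTranspose) * (c * Z + d) =
      (c * Z + d).conjTranspose * (Z' * (c * Z + d)) -
        (Z' * (c * Z + d)).conjTranspose * (c * Z + d) := by
    rw [Matrix.conjTranspose_mul Z']
    noncomm_ring
  rw [s1, hR]
  simp only [Matrix.conjTranspose_add, Matrix.conjTranspose_mul]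
  have s2 : (Z.conjTranspose * c.conjTranspose + d.conjTranspose) * (a * Z + b) -
      (Z.conjTranspose * a.conjTranspose + b.conjTranspose) * (c * Z + d) =
      Z.conjTranspose * (c.conjTranspose * a - a.conjTranspose * c) * Z +
      Z.conjTranspose * (c.conjTranspose * b - a.conjTranspose * d) +
      (d.conjTranspose * a - b.conjTranspose * c) * Z +
      (d.conjTranspose * b - b.conjTranspose * d) := by
    noncomm_ring
  rw [s2, f1, f2, f3, f4]
  noncomm_ring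

lemma herm_entry {γ : Matrix (Fin 4 ⊕ Fin 4) (Fin 4 ⊕ Fin 4) ℤ}
    (h : γ ∈ Matrix.symplecticGroup (Fin 4) ℤ) {τ τ' : Sym2 (Fin 4) → ℂ} (hR : Rel γ τ τ')
    (k : Fin 4) :
    ∑ l, ∑ m, ((toC γ.toBlocks₂₁ * mat τ + toC γ.toBlocks₂₂) l k).re * (τ' s(l, m)).im *
        ((toC γ.toBlocks₂₁ * mat τ + toC γ.toBlocks₂₂) m k).re +
      ∑ l, ∑ m, ((toC γ.toBlocks₂₁ * mat τ + toC γ.toBlocks₂₂) l k).im * (τ' s(l, m)).im *
        ((toC γ.toBlocks₂₁ * mat τ + toC γ.toBlocks₂₂) m k).im = (τ s(k, k)).im := by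
  have h1 := congrFun (congrFun (herm h hR) k) k
  set j := toC γ.toBlocks₂₁ * mat τ + toC γ.toBlocks₂₂
  rw [Matrix.mul_assoc, Matrix.mul_apply] at h1
  have h2 : ∀ l, (j.conjTranspose k l * ((mat τ' - (mat τ').conjTranspose) * j) l k) =
      ∑ m, star (j l k) * (2 * Complex.I * ((τ' s(l, m)).im : ℂ)) * j m k := by
    intro l
    rw [Matrix.mul_apply, Finset.mul_sum]
    refine Finset.sum_congr rfl fun m _ => ?_
    have h3 : (mat τ' - (mat τ').conjTranspose) l m = 2 * Complex.I * ((τ' s(l, m)).im : ℂ) := by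
      have h4 : (mat τ' - (mat τ').conjTranspose) l m =
          τ' s(l, m) - (starRingEnd ℂ) (τ' s(m, l)) := rfl
      rw [h4, Sym2.eq_swap (a := m) (b := l), Complex.sub_conj]
      push_cast
      ring
    rw [h3, Matrix.conjTranspose_apply]
    ring
  rw [Finset.sum_congr rfl fun l _ => h2 l] at h1
  have h5 : (mat τ - (mat τ).conjTranspose) k k = 2 * Complex.I * ((τ s(k, k)).im : ℂ) := by
    have h4 : (mat τ - (mat τ).conjTranspose) k k =
        τ s(k, k) - (starRingEnd ℂ) (τ s(k, k)) := rfl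
    rw [h4, Complex.sub_conj]
    push_cast
    ring
  rw [h5] at h1
  have h6 := congrArg Complex.im h1
  rw [Complex.im_sum] at h6
  have h7 : (2 * Complex.I * ((τ s(k, k)).im : ℂ)).im = 2 * (τ s(k, k)).im := by simp
  rw [h7] at h6
  have h8 : ∀ l, (∑ m, star (j l k) * (2 * Complex.I * ((τ' s(l, m)).im : ℂ)) * j m k).im =
      2 * (∑ m, (j l k).re * (τ' s(l, m)).im * (j m k).re) +
        2 * (∑ m, (j l k).im * (τ' s(l, m)).im * (j m k).im) := by
    intro l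
    rw [Complex.im_sum, Finset.mul_sum, Finset.mul_sum, ← Finset.sum_add_distrib]
    refine Finset.sum_congr rfl fun m _ => ?_
    simp
    ring
  rw [Finset.sum_congr rfl fun l _ => h8 l, Finset.sum_add_distrib, ← Finset.mul_sum,
    ← Finset.mul_sum] at h6
  linarith


lemma TT_bound {x : ℝ} (h1 : 1 < x) (h2 : x < 2) (i j : Fin 4) : |TT x i j| ≤ 256 := by
  have b : ∀ k : ℕ, k ≤ 6 → 0 ≤ x ^ k ∧ x ^ k ≤ 64 := by
    intro k hk
    refine ⟨by positivity, ?_⟩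
    calc x ^ k ≤ x ^ 6 := pow_le_pow_right₀ h1.le hk
      _ ≤ 2 ^ 6 := pow_le_pow_left₀ (by linarith) h2.le 6
      _ = 64 := by norm_num
  have b1 := b 1 (by norm_num)
  have b2 := b 2 (by norm_num)
  have b3 := b 3 (by norm_num)
  have b4 := b 4 (by norm_num)
  have b5 := b 5 (by norm_num)
  have b6 := b 6 (by norm_num)
  rw [pow_one] at b1
  rw [abs_le]
  fin_cases i <;> fin_cases j <;> simp [TT] <;> constructor <;> linarith

lemma row_bound {x : ℝ} (h1 : 1 < x) {τ : Sym2 (Fin 4) → ℂ}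
    (h : τ ∈ Metric.ball (tau0 x) (1 / 8)) (u : Fin 4 → ℝ) {M : ℝ}
    (hM : ∀ k, |∑ m, u m * (τ s(m, k)).im| ≤ M) (k : Fin 4) : |u k| ≤ M := by
  by_contra hk
  push Not at hk
  have hM0 : 0 ≤ M := (abs_nonneg _).trans (hM 0)
  have h2 := quad_ball h1 h u
  have h3 : ∑ i, ∑ j, u i * (τ s(i, j)).im * u j ≤ ∑ j, M * |u j| := by
    rw [Finset.sum_comm]
    refine Finset.sum_le_sum fun j _ => ?_
    rw [← Finset.sum_mul]
    refine (le_abs_self _).trans ?_
    rw [abs_mul]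
    exact mul_le_mul_of_nonneg_right (hM j) (abs_nonneg _)
  have h4 : ∑ j, (2 * u j ^ 2 - M * |u j| + M ^ 2 / 8) ≤ M ^ 2 / 2 := by
    rw [Finset.sum_add_distrib, Finset.sum_sub_distrib, ← Finset.mul_sum]
    simp only [Finset.sum_const, Finset.card_univ, Fintype.card_fin, nsmul_eq_mul]
    push_cast
    linarith
  have h5 : ∀ j ∈ Finset.univ, 0 ≤ 2 * u j ^ 2 - M * |u j| + M ^ 2 / 8 := by
    intro j _
    have h6 := sq_nonneg (|u j| - M / 4)
    have h7 := sq_abs (u j)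
    nlinarith
  have h6 := Finset.single_le_sum h5 (Finset.mem_univ k)
  have h7 := sq_abs (u k)
  nlinarith

lemma rel_bound {x : ℝ} (h1 : 1 < x) (h2 : x < 2)
    {γ : Matrix (Fin 4 ⊕ Fin 4) (Fin 4 ⊕ Fin 4) ℤ}
    (h : γ ∈ Matrix.symplecticGroup (Fin 4) ℤ) {τ τ' : Sym2 (Fin 4) → ℂ}
    (hτ : τ ∈ Metric.ball (tau0 x) (1 / 8)) (hτ' : τ' ∈ Metric.ball (tau0 x) (1 / 8))
    (hR : Rel γ τ τ') (i j : Fin 4 ⊕ Fin 4) : |(γ i j : ℝ)| ≤ 40000 := by
  have im_bd : ∀ l k, |(τ s(l, k)).im| ≤ 257 := by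
    intro l k
    have h3 := (near hτ l k).1
    have h4 := TT_bound h1 h2 l k
    have h5 := abs_sub_abs_le_abs_sub ((τ s(l, k)).im) (TT x l k)
    linarith
  have im_bd' : ∀ l k, |(τ' s(l, k)).im| ≤ 256 + 1 / 8 := by
    intro l k
    have h3 := (near hτ' l k).1
    have h4 := TT_bound h1 h2 l k
    have h5 := abs_sub_abs_le_abs_sub ((τ' s(l, k)).im) (TT x l k)
    linarith
  set c := γ.toBlocks₂₁ with hc
  set d := γ.toBlocks₂₂ with hd
  set a := γ.toBlocks₁₁ with ha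
  set b := γ.toBlocks₁₂ with hb
  set J := toC c * mat τ + toC d with hJ
  -- entries of J
  have hJb : ∀ l k, |(J l k).re| ≤ 12 ∧ |(J l k).im| ≤ 12 := by
    intro l k
    have e := herm_entry h hR k
    have q1 := quad_ball h1 hτ' (fun l => (J l k).re)
    have q2 := quad_ball h1 hτ' (fun l => (J l k).im)
    have q3 := (abs_le.1 (im_bd k k)).2
    have q4 := Finset.single_le_sum (f := fun l => (J l k).re ^ 2) (fun l _ => sq_nonneg _)
      (Finset.mem_univ l)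
    have q5 := Finset.single_le_sum (f := fun l => (J l k).im ^ 2) (fun l _ => sq_nonneg _)
      (Finset.mem_univ l)
    have q6 : 2 * (J l k).re ^ 2 + 2 * (J l k).im ^ 2 ≤ 257 := by
      linarith
    constructor
    · rw [abs_le]; constructor <;> nlinarith [sq_nonneg (J l k).im]
    · rw [abs_le]; constructor <;> nlinarith [sq_nonneg (J l k).re]
  have hJe : ∀ l k, J l k = ∑ m, (c l m : ℂ) * τ s(m, k) + (d l k : ℂ) := by
    intro l k
    rfl
  have hJim : ∀ l k, (J l k).im = ∑ m, (c l m : ℝ) * (τ s(m, k)).im := by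
    intro l k
    rw [hJe]
    simp
  have hJre : ∀ l k, (J l k).re = ∑ m, (c l m : ℝ) * (τ s(m, k)).re + (d l k : ℝ) := by
    intro l k
    rw [hJe]
    simp
  have hcb : ∀ l k, |(c l k : ℝ)| ≤ 12 := by
    intro l
    refine row_bound h1 hτ (fun m => (c l m : ℝ)) fun k => ?_
    have := (hJb l k).2
    rwa [hJim] at this
  have hdb : ∀ l k, |(d l k : ℝ)| ≤ 18 := by
    intro l k
    have e1 := (hJb l k).1
    have e2 : |∑ m, (c l m : ℝ) * (τ s(m, k)).re| ≤ ∑ m : Fin 4, (12 * (1 / 8) : ℝ) := by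
      refine (Finset.abs_sum_le_sum_abs _ _).trans (Finset.sum_le_sum fun m _ => ?_)
      rw [abs_mul]
      exact mul_le_mul (hcb l m) (near hτ m k).2.le (abs_nonneg _) (by norm_num)
    have e3 : (d l k : ℝ) = (J l k).re - ∑ m, (c l m : ℝ) * (τ s(m, k)).re := by
      rw [hJre]; ring
    rw [e3]
    refine (abs_sub _ _).trans ?_
    simp at e2
    linarith
  -- entries of K = Z' J = a Z + b
  set K := toC a * mat τ + toC b with hK
  have hKe : ∀ l k, K l k = ∑ m, τ' s(l, m) * J m k := by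
    intro l k
    have : K = mat τ' * J := hR.symm
    rw [this]
    rfl
  have hKb : ∀ l k, ‖K l k‖ ≤ 24672 := by
    intro l k
    rw [hKe]
    have : ‖∑ m, τ' s(l, m) * J m k‖ ≤ ∑ m : Fin 4, (257 * 24 : ℝ) := by
      refine (norm_sum_le _ _).trans (Finset.sum_le_sum fun m _ => ?_)
      rw [norm_mul]
      have n1 : ‖τ' s(l, m)‖ ≤ 257 := by
        have := Complex.norm_le_abs_re_add_abs_im (τ' s(l, m))
        have r1 := (near hτ' l m).2
        have r2 := im_bd' l m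
        linarith
      have n2 : ‖J m k‖ ≤ 24 := by
        have := Complex.norm_le_abs_re_add_abs_im (J m k)
        have r1 := (hJb m k).1
        have r2 := (hJb m k).2
        linarith
      exact mul_le_mul n1 n2 (norm_nonneg _) (by norm_num)
    refine this.trans ?_
    simp
    norm_num
  have hKe2 : ∀ l k, K l k = ∑ m, (a l m : ℂ) * τ s(m, k) + (b l k : ℂ) := by
    intro l k
    rfl
  have hKim : ∀ l k, (K l k).im = ∑ m, (a l m : ℝ) * (τ s(m, k)).im := by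
    intro l k
    rw [hKe2]
    simp
  have hKre : ∀ l k, (K l k).re = ∑ m, (a l m : ℝ) * (τ s(m, k)).re + (b l k : ℝ) := by
    intro l k
    rw [hKe2]
    simp
  have hab : ∀ l k, |(a l k : ℝ)| ≤ 24672 := by
    intro l
    refine row_bound h1 hτ (fun m => (a l m : ℝ)) fun k => ?_
    have := (Complex.abs_im_le_norm (K l k)).trans (hKb l k)
    rwa [hKim] at this
  have hbb : ∀ l k, |(b l k : ℝ)| ≤ 40000 := by
    intro l k
    have e1 := (Complex.abs_re_le_norm (K l k)).trans (hKb l k)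
    have e2 : |∑ m, (a l m : ℝ) * (τ s(m, k)).re| ≤ ∑ m : Fin 4, (24672 * (1 / 8) : ℝ) := by
      refine (Finset.abs_sum_le_sum_abs _ _).trans (Finset.sum_le_sum fun m _ => ?_)
      rw [abs_mul]
      exact mul_le_mul (hab l m) (near hτ m k).2.le (abs_nonneg _) (by norm_num)
    have e3 : (b l k : ℝ) = (K l k).re - ∑ m, (a l m : ℝ) * (τ s(m, k)).re := by
      rw [hKre]; ring
    rw [e3]
    refine (abs_sub _ _).trans ?_
    simp at e2
    linarith
  rcases i with i | i <;> rcases j with j | j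
  · exact (hab i j).trans (by norm_num)
  · exact hbb i j
  · exact (hcb i j).trans (by norm_num)
  · exact (hdb i j).trans (by norm_num)

lemma rel_closed (γ : Matrix (Fin 4 ⊕ Fin 4) (Fin 4 ⊕ Fin 4) ℤ) :
    IsClosed {p : (Sym2 (Fin 4) → ℂ) × (Sym2 (Fin 4) → ℂ) | Rel γ p.1 p.2} := by
  have hm : Continuous (fun τ : Sym2 (Fin 4) → ℂ => mat τ) := by
    unfold mat
    refine continuous_matrix fun i j => ?_
    exact continuous_apply _
  unfold Rel
  refine isClosed_eq ?_ ?_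
  · exact (hm.comp continuous_snd).matrix_mul
      ((continuous_const.matrix_mul (hm.comp continuous_fst)).add continuous_const)
  · exact (continuous_const.matrix_mul (hm.comp continuous_fst)).add continuous_const

lemma nearby {x : ℝ} (h1 : 1 < x) (h2 : x < 2) :
    ∀ᶠ p : (Sym2 (Fin 4) → ℂ) × (Sym2 (Fin 4) → ℂ) in 𝓝 (tau0 x, tau0 x),
      ∀ γ ∈ Matrix.symplecticGroup (Fin 4) ℤ, Rel γ p.1 p.2 → Rel γ (tau0 x) (tau0 x) := by
  have hfin : {γ : Matrix (Fin 4 ⊕ Fin 4) (Fin 4 ⊕ Fin 4) ℤ |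
      ∀ i j, |(γ i j : ℝ)| ≤ 40000}.Finite := by
    have : {γ : Matrix (Fin 4 ⊕ Fin 4) (Fin 4 ⊕ Fin 4) ℤ | ∀ i j, |(γ i j : ℝ)| ≤ 40000} ⊆
        Set.pi Set.univ (fun _ => Set.pi Set.univ (fun _ => Set.Icc (-40000 : ℤ) 40000)) := by
      intro γ hγ i _ j _
      have h3 := abs_le.1 (hγ i j)
      refine ⟨?_, ?_⟩
      · have := h3.1
        exact_mod_cast this
      · have := h3.2
        exact_mod_cast this
    refine Set.Finite.subset ?_ this
    exact Set.Finite.pi fun _ => Set.Finite.pi fun _ => Set.finite_Icc (-40000 : ℤ) 40000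
  have h3 : ∀ᶠ p : (Sym2 (Fin 4) → ℂ) × (Sym2 (Fin 4) → ℂ) in 𝓝 (tau0 x, tau0 x),
      ∀ γ ∈ {γ : Matrix (Fin 4 ⊕ Fin 4) (Fin 4 ⊕ Fin 4) ℤ | ∀ i j, |(γ i j : ℝ)| ≤ 40000},
        Rel γ p.1 p.2 → Rel γ (tau0 x) (tau0 x) := by
    rw [Filter.eventually_all_finite hfin]
    intro γ _
    by_cases h : Rel γ (tau0 x) (tau0 x)
    · exact Eventually.of_forall fun _ _ => h
    · have := (rel_closed γ).isOpen_compl.mem_nhds (show (tau0 x, tau0 x) ∈ _ from h)
      filter_upwards [this] with p hp hR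
      exact absurd hR hp
  have hb : Metric.ball (tau0 x) (1 / 8) ×ˢ Metric.ball (tau0 x) (1 / 8) ∈
      𝓝 (tau0 x, tau0 x) :=
    prod_mem_nhds (Metric.ball_mem_nhds _ (by norm_num)) (Metric.ball_mem_nhds _ (by norm_num))
  filter_upwards [h3, hb] with p hp hpb γ hγ hR
  exact hp γ (fun i j => rel_bound h1 h2 hγ hpb.1 hpb.2 hR i j) hR


/-! ### The stabilizer of `tau0` -/

lemma exists_transcendental : ∃ x : ℝ, 1 < x ∧ x < 2 ∧ Transcendental ℤ x := by
  by_contra h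
  push Not at h
  have h1 : Set.Ioo (1 : ℝ) 2 ⊆ {x : ℝ | IsAlgebraic ℤ x} := by
    intro x hx
    have := h x hx.1 hx.2
    simpa [Transcendental] using this
  have h2 : {x : ℝ | IsAlgebraic ℤ x}.Countable := Algebraic.countable ℤ ℝ
  have h3 := h2.mono h1
  have h4 : ¬ (Set.Ioo (1 : ℝ) 2).Countable := by
    intro hc
    have := Cardinal.mk_Ioo_real (show (1 : ℝ) < 2 by norm_num)
    have h5 := Cardinal.le_aleph0_iff_set_countable.2 hc
    rw [this] at h5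
    exact absurd h5 (not_le.2 Cardinal.aleph0_lt_continuum)
  exact h4 h3

open Polynomial in
lemma lin {x : ℝ} (hx : Transcendental ℤ x) (c1 c2 c3 c4 c5 c6 : ℤ)
    (h : (c1 : ℝ) * x + c2 * x ^ 2 + c3 * x ^ 3 + c4 * x ^ 4 + c5 * x ^ 5 + c6 * x ^ 6 = 0) :
    c1 = 0 ∧ c2 = 0 ∧ c3 = 0 ∧ c4 = 0 ∧ c5 = 0 ∧ c6 = 0 := by
  have h1 : aeval x (C c1 * X + C c2 * X ^ 2 + C c3 * X ^ 3 + C c4 * X ^ 4 + C c5 * X ^ 5 +
      C c6 * X ^ 6 : ℤ[X]) = 0 := by
    simpa using h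
  have h2 := (transcendental_iff.1 hx) _ h1
  have e : ∀ k, (C c1 * X + C c2 * X ^ 2 + C c3 * X ^ 3 + C c4 * X ^ 4 + C c5 * X ^ 5 +
      C c6 * X ^ 6 : ℤ[X]).coeff k = 0 := fun k => by rw [h2]; simp
  have e1 := e 1
  have e2 := e 2
  have e3 := e 3
  have e4 := e 4
  have e5 := e 5
  have e6 := e 6
  simp only [coeff_add, coeff_C_mul, coeff_X_pow, coeff_X] at e1 e2 e3 e4 e5 e6
  norm_num at e1 e2 e3 e4 e5 e6
  exact ⟨e1, e2, e3, e4, e5, e6⟩

/-- A matrix of integers as a matrix of real numbers. -/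
def toR (a : Matrix (Fin 4) (Fin 4) ℤ) : Matrix (Fin 4) (Fin 4) ℝ := a.map (fun n : ℤ => (n : ℝ))

open Polynomial in
def TP : Matrix (Fin 4) (Fin 4) ℤ[X] :=
  !![C 4 * X ^ 3, X, 0, 0; X, C 4 * X ^ 4, 0, 0; 0, 0, C 4 * X ^ 5, X ^ 2; 0, 0, X ^ 2, C 4 * X ^ 6]

lemma TP_aeval (x : ℝ) : TP.map (Polynomial.aeval x) = TT x := by
  have h4 : (Polynomial.aeval x) (4 : Polynomial ℤ) = (4 : ℝ) := map_ofNat _ 4
  ext i j
  fin_cases i <;> fin_cases j <;> simp [TP, TT, h4]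

lemma TP_eval (i j : Fin 4) : (TP i j).eval 0 = 0 := by
  fin_cases i <;> fin_cases j <;> simp [TP]

lemma T_inj {x : ℝ} (h1 : 1 < x) (M : Matrix (Fin 4) (Fin 4) ℝ) (h : TT x * M = 0) : M = 0 := by
  ext i k
  have h2 := quad_T h1 (fun i => M i k)
  have h3 : ∑ i, ∑ j, M i k * TT x i j * M j k = 0 := by
    refine Finset.sum_eq_zero fun i _ => ?_
    have h4 := congrFun (congrFun h i) k
    rw [Matrix.mul_apply, Matrix.zero_apply] at h4
    have : ∑ j, M i k * TT x i j * M j k = M i k * ∑ j, TT x i j * M j k := by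
      rw [Finset.mul_sum]
      exact Finset.sum_congr rfl fun j _ => by ring
    rw [this, h4, mul_zero]
  have h5 : ∑ i, M i k ^ 2 ≤ 0 := by linarith
  have h6 := Finset.single_le_sum (f := fun i => M i k ^ 2) (fun i _ => sq_nonneg _)
    (Finset.mem_univ i)
  have h7 : M i k ^ 2 ≤ 0 := h6.trans h5
  have h8 : M i k ^ 2 = 0 := le_antisymm h7 (sq_nonneg _)
  simpa using h8

lemma stab_real {x : ℝ} {γ : Matrix (Fin 4 ⊕ Fin 4) (Fin 4 ⊕ Fin 4) ℤ}
    (hR : Rel γ (tau0 x) (tau0 x)) :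
    TT x * toR γ.toBlocks₂₁ * TT x + toR γ.toBlocks₁₂ = 0 ∧
      TT x * toR γ.toBlocks₂₂ = toR γ.toBlocks₁₁ * TT x := by
  unfold Rel at hR
  have hm : mat (tau0 x) = Complex.I • (TT x).map (fun t : ℝ => (t : ℂ)) := by
    ext i j
    rfl
  have hcast : ∀ a : Matrix (Fin 4) (Fin 4) ℤ, toC a = (toR a).map (fun t : ℝ => (t : ℂ)) := by
    intro a
    ext i j
    simp [toC, toR]
  rw [hm, hcast, hcast, hcast, hcast] at hR
  set T := TT x
  set a := toR γ.toBlocks₁₁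
  set b := toR γ.toBlocks₁₂
  set c := toR γ.toBlocks₂₁
  set d := toR γ.toBlocks₂₂
  have mm : ∀ P Q : Matrix (Fin 4) (Fin 4) ℝ, P.map (fun t : ℝ => (t : ℂ)) *
      Q.map (fun t : ℝ => (t : ℂ)) = (P * Q).map (fun t : ℝ => (t : ℂ)) := by
    intro P Q
    exact (Matrix.map_mul (f := Complex.ofRealHom)).symm
  have e : -((T * (c * T)).map (fun t : ℝ => (t : ℂ))) +
      Complex.I • ((T * d).map (fun t : ℝ => (t : ℂ))) =
      Complex.I • ((a * T).map (fun t : ℝ => (t : ℂ))) + b.map (fun t : ℝ => (t : ℂ)) := by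
    rw [Matrix.mul_smul, Matrix.mul_add, Matrix.smul_mul, Matrix.smul_mul, Matrix.mul_smul,
      smul_smul, Complex.I_mul_I, mm, mm, mm, Matrix.mul_smul, mm, neg_smul, one_smul] at hR
    exact hR
  constructor
  · ext i j
    have := congrArg Complex.re (congrFun (congrFun e i) j)
    simp at this
    rw [Matrix.add_apply, Matrix.mul_assoc, Matrix.zero_apply]
    linarith
  · ext i j
    have := congrArg Complex.im (congrFun (congrFun e i) j)
    simp at this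
    exact this

lemma toR_zero_iff {a : Matrix (Fin 4) (Fin 4) ℤ} (h : toR a = 0) : a = 0 := by
  ext i j
  have := congrFun (congrFun h i) j
  simpa [toR] using this

lemma stab_bc {x : ℝ} (h1 : 1 < x) (hx : Transcendental ℤ x)
    {b c : Matrix (Fin 4) (Fin 4) ℤ} (h : TT x * toR c * TT x + toR b = 0) : b = 0 ∧ c = 0 := by
  have hb : b = 0 := by
    ext i j
    set P : Matrix (Fin 4) (Fin 4) (Polynomial ℤ) :=
      TP * c.map Polynomial.C * TP + b.map Polynomial.C with hP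
    have h2 : Polynomial.aeval x (P i j) = 0 := by
      have h3 : P.map (Polynomial.aeval x) = TT x * toR c * TT x + toR b := by
        have e1 : ∀ a : Matrix (Fin 4) (Fin 4) ℤ,
            (a.map Polynomial.C).map (Polynomial.aeval x) = toR a := by
          intro a
          ext i j
          simp [toR]
        have e2 : ∀ A B : Matrix (Fin 4) (Fin 4) (Polynomial ℤ),
            (A * B).map (Polynomial.aeval x) =
              A.map (Polynomial.aeval x) * B.map (Polynomial.aeval x) := by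
          intro A B
          exact Matrix.map_mul (f := ((Polynomial.aeval x : Polynomial ℤ →ₐ[ℤ] ℝ) :
            Polynomial ℤ →+* ℝ))
        have e3 : P.map (Polynomial.aeval x) = (TP * c.map Polynomial.C * TP).map
            (Polynomial.aeval x) + (b.map Polynomial.C).map (Polynomial.aeval x) := by
          exact Matrix.map_add _ (map_add (Polynomial.aeval x)) _ _
        rw [e3, e2, e2, e1, e1, TP_aeval]
      rw [h] at h3
      exact congrFun (congrFun h3 i) j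
    have h3 := (transcendental_iff.1 hx) _ h2
    have h4 := congrArg (Polynomial.eval 0) h3
    have h5 : (P i j).eval 0 = b i j := by
      rw [hP, Matrix.add_apply, Matrix.mul_apply, Polynomial.eval_add,
        Polynomial.eval_finsetSum]
      have : ∀ k, ((TP * c.map Polynomial.C) i k * TP k j).eval 0 = 0 := by
        intro k
        rw [Polynomial.eval_mul, TP_eval, mul_zero]
      simp [this]
    rw [h5, Polynomial.eval_zero] at h4
    simpa using h4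
  refine ⟨hb, ?_⟩
  have h2 : toR b = 0 := by
    rw [hb]
    ext i j
    simp [toR]
  rw [h2, add_zero, Matrix.mul_assoc] at h
  have h3 := T_inj h1 _ h
  have hT : (TT x).transpose = TT x := by
    ext i j
    exact TT_symm x j i
  have h4 : TT x * (toR c).transpose = 0 := by
    rw [← Matrix.transpose_transpose (TT x * (toR c).transpose), Matrix.transpose_mul,
      Matrix.transpose_transpose, hT, h3, Matrix.transpose_zero]
  have h5 := T_inj h1 _ h4
  have h6 : toR c = 0 := by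
    rw [← Matrix.transpose_transpose (toR c), h5, Matrix.transpose_zero]
  exact toR_zero_iff h6

lemma stab_ad {x : ℝ} (hx : Transcendental ℤ x)
    {a d : Matrix (Fin 4) (Fin 4) ℤ} (h : TT x * toR d = toR a * TT x) :
    ∃ e1 e2 : ℤ, a = Matrix.diagonal ![e1, e1, e2, e2] ∧ d = Matrix.diagonal ![e1, e1, e2, e2] := by
  have E : ∀ k l, ∑ m, TT x k m * (d m l : ℝ) = ∑ m, (a k m : ℝ) * TT x m l := by
    intro k l
    exact congrFun (congrFun h k) l
  simp only [Fin.sum_univ_four] at E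
  have E00 := E 0 0
  have E01 := E 0 1
  have E02 := E 0 2
  have E03 := E 0 3
  have E10 := E 1 0
  have E11 := E 1 1
  have E12 := E 1 2
  have E13 := E 1 3
  have E20 := E 2 0
  have E21 := E 2 1
  have E22 := E 2 2
  have E23 := E 2 3
  have E30 := E 3 0
  have E31 := E 3 1
  have E32 := E 3 2
  have E33 := E 3 3
  simp [TT] at E00 E01 E02 E03 E10 E11 E12 E13 E20 E21 E22 E23 E30 E31 E32 E33
  have L00 := lin hx (d 1 0 - a 0 1) 0 (4 * d 0 0 - 4 * a 0 0) 0 0 0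
    (by push_cast; linear_combination E00)
  have L01 := lin hx (d 1 1 - a 0 0) 0 (4 * d 0 1) (-4 * a 0 1) 0 0
    (by push_cast; linear_combination E01)
  have L02 := lin hx (d 1 2) (-a 0 3) (4 * d 0 2) 0 (-4 * a 0 2) 0
    (by push_cast; linear_combination E02)
  have L03 := lin hx (d 1 3) (-a 0 2) (4 * d 0 3) 0 0 (-4 * a 0 3)
    (by push_cast; linear_combination E03)
  have L10 := lin hx (d 0 0 - a 1 1) 0 (-4 * a 1 0) (4 * d 1 0) 0 0
    (by push_cast; linear_combination E10)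
  have L11 := lin hx (d 0 1 - a 1 0) 0 0 (4 * d 1 1 - 4 * a 1 1) 0 0
    (by push_cast; linear_combination E11)
  have L12 := lin hx (d 0 2) (-a 1 3) 0 (4 * d 1 2) (-4 * a 1 2) 0
    (by push_cast; linear_combination E12)
  have L13 := lin hx (d 0 3) (-a 1 2) 0 (4 * d 1 3) 0 (-4 * a 1 3)
    (by push_cast; linear_combination E13)
  have L20 := lin hx (-a 2 1) (d 3 0) (-4 * a 2 0) 0 (4 * d 2 0) 0
    (by push_cast; linear_combination E20)
  have L21 := lin hx (-a 2 0) (d 3 1) 0 (-4 * a 2 1) (4 * d 2 1) 0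
    (by push_cast; linear_combination E21)
  have L22 := lin hx 0 (d 3 2 - a 2 3) 0 0 (4 * d 2 2 - 4 * a 2 2) 0
    (by push_cast; linear_combination E22)
  have L23 := lin hx 0 (d 3 3 - a 2 2) 0 0 (4 * d 2 3) (-4 * a 2 3)
    (by push_cast; linear_combination E23)
  have L30 := lin hx (-a 3 1) (d 2 0) (-4 * a 3 0) 0 0 (4 * d 3 0)
    (by push_cast; linear_combination E30)
  have L31 := lin hx (-a 3 0) (d 2 1) 0 (-4 * a 3 1) 0 (4 * d 3 1)
    (by push_cast; linear_combination E31)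
  have L32 := lin hx 0 (d 2 2 - a 3 3) 0 0 (-4 * a 3 2) (4 * d 3 2)
    (by push_cast; linear_combination E32)
  have L33 := lin hx 0 (d 2 3 - a 3 2) 0 0 0 (4 * d 3 3 - 4 * a 3 3)
    (by push_cast; linear_combination E33)
  refine ⟨a 0 0, a 2 2, ?_, ?_⟩
  · ext i j
    fin_cases i <;> fin_cases j <;> simp <;> omega
  · ext i j
    fin_cases i <;> fin_cases j <;> simp <;> omega


/-! ### The main theorem -/

lemma ff_const {x : ℝ} (h1 : 1 < x) (hx : Transcendental ℤ x)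
    {γ : Matrix (Fin 4 ⊕ Fin 4) (Fin 4 ⊕ Fin 4) ℤ} (hγ : γ ∈ Matrix.symplecticGroup (Fin 4) ℤ)
    (h0 : Rel γ (tau0 x) (tau0 x)) {τ τ' : Sym2 (Fin 4) → ℂ} (hR : Rel γ τ τ')
    (i : Fin 6 ⊕ Fin 10) : ff i τ = ff i τ' := by
  obtain ⟨hbc, had⟩ := stab_real h0
  obtain ⟨hb, hc⟩ := stab_bc h1 hx hbc
  obtain ⟨e1, e2, ha, hd⟩ := stab_ad hx had
  obtain ⟨-, -, s3, -⟩ := symp hγ
  rw [hb, hc, ha, hd, Matrix.transpose_zero, zero_mul, sub_zero, Matrix.diagonal_transpose,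
    Matrix.diagonal_mul_diagonal] at s3
  have k1 : e1 * e1 = 1 := by
    have := congrFun (congrFun s3 0) 0
    simpa using this
  have k2 : e2 * e2 = 1 := by
    have := congrFun (congrFun s3 2) 2
    simpa using this
  unfold Rel at hR
  rw [hb, hc, ha, hd, toC_zero, zero_mul, zero_add, add_zero] at hR
  have hE : ∀ i j, τ' s(i, j) * ((![e1, e1, e2, e2] j : ℤ) : ℂ) =
      ((![e1, e1, e2, e2] i : ℤ) : ℂ) * τ s(i, j) := by
    intro i j
    have := congrFun (congrFun hR i) j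
    have e : ∀ v : Fin 4 → ℤ, toC (Matrix.diagonal v) = Matrix.diagonal (fun i => (v i : ℂ)) := by
      intro v
      unfold toC
      rw [Matrix.diagonal_map (by simp)]
    rw [e, Matrix.mul_diagonal, Matrix.diagonal_mul] at this
    exact this
  have c1 : (e1 : ℂ) * e1 = 1 := by exact_mod_cast k1
  have c2 : (e2 : ℂ) * e2 = 1 := by exact_mod_cast k2
  have E00 := hE 0 0
  have E01 := hE 0 1
  have E02 := hE 0 2
  have E03 := hE 0 3
  have E11 := hE 1 1
  have E12 := hE 1 2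
  have E13 := hE 1 3
  have E22 := hE 2 2
  have E23 := hE 2 3
  have E33 := hE 3 3
  simp at E00 E01 E02 E03 E11 E12 E13 E22 E23 E33
  have A00 : τ' s(0, 0) = τ s(0, 0) := by linear_combination e1 * E00 + (τ s(0, 0) - τ' s(0, 0)) * c1
  have A01 : τ' s(0, 1) = τ s(0, 1) := by linear_combination e1 * E01 + (τ s(0, 1) - τ' s(0, 1)) * c1
  have A11 : τ' s(1, 1) = τ s(1, 1) := by linear_combination e1 * E11 + (τ s(1, 1) - τ' s(1, 1)) * c1
  have A22 : τ' s(2, 2) = τ s(2, 2) := by linear_combination e2 * E22 + (τ s(2, 2) - τ' s(2, 2)) * c2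
  have A23 : τ' s(2, 3) = τ s(2, 3) := by linear_combination e2 * E23 + (τ s(2, 3) - τ' s(2, 3)) * c2
  have A33 : τ' s(3, 3) = τ s(3, 3) := by linear_combination e2 * E33 + (τ s(3, 3) - τ' s(3, 3)) * c2
  have A02 : τ' s(0, 2) = e1 * e2 * τ s(0, 2) := by linear_combination e2 * E02 - τ' s(0, 2) * c2
  have A03 : τ' s(0, 3) = e1 * e2 * τ s(0, 3) := by linear_combination e2 * E03 - τ' s(0, 3) * c2
  have A12 : τ' s(1, 2) = e1 * e2 * τ s(1, 2) := by linear_combination e2 * E12 - τ' s(1, 2) * c2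
  have A13 : τ' s(1, 3) = e1 * e2 * τ s(1, 3) := by linear_combination e2 * E13 - τ' s(1, 3) * c2
  rcases i with k | p
  · simp only [ff]
    fin_cases k <;> simp [ev, A00, A01, A11, A22, A23, A33]
  · have hod : ∀ a, τ' (od a) = e1 * e2 * τ (od a) := by
      intro a
      fin_cases a
      · exact A02
      · exact A03
      · exact A12
      · exact A13
    simp only [ff]
    rw [hod, hod]
    linear_combination (-(τ (od (pa p)) * τ (od (pb p)))) * (e1 * e1 * c2 + c1)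

lemma ball_subset {x : ℝ} (h1 : 1 < x) : Metric.ball (tau0 x) (1 / 8) ⊆ Siegel 4 := by
  intro τ hτ v hv
  have h := quad_ball h1 hτ v
  obtain ⟨i, hi⟩ := Function.ne_iff.1 hv
  have h2 : 0 < ∑ i, v i ^ 2 :=
    Finset.sum_pos' (fun i _ => sq_nonneg _) ⟨i, Finset.mem_univ i, sq_pos_of_ne_zero hi⟩
  linarith

lemma ff_diff (i : Fin 6 ⊕ Fin 10) : Differentiable ℂ (ff i) := by
  rcases i with k | p
  · exact differentiable_apply _
  · exact (differentiable_apply _).mul (differentiable_apply _)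

theorem main : ∃ τ₀ ∈ Siegel 4, Theta τ₀ ≠ 0 ∧
    ∃ (V : Set (Sym2 (Fin 4) → ℂ)) (f : (Sym2 (Fin 4) → ℂ) → ℂ),
      IsOpen V ∧ V ⊆ Siegel 4 ∧ τ₀ ∈ V ∧ IsHolomorphicOnQuotient V f ∧
      ∀ (W : Set ((Fin 4 → Fin 2) → ℂ)) (F : ((Fin 4 → Fin 2) → ℂ) → ℂ),
        IsOpenCone W → Theta τ₀ ∈ W → IsHolomorphicOnCone W F →
        ¬ ∀ᶠ τ in 𝓝 τ₀, f τ = F (Theta τ) := by
  obtain ⟨x, h1, h2, hx⟩ := exists_transcendental
  obtain ⟨i, hi⟩ := bad_function h1
  have hball : tau0 x ∈ Metric.ball (tau0 x) (1 / 8) := Metric.mem_ball_self (by norm_num)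
  have hn := nearby h1 h2
  rw [nhds_prod_eq, Filter.eventually_iff, Filter.mem_prod_same_iff] at hn
  obtain ⟨V0, hV0, hV⟩ := hn
  obtain ⟨V1, hV1, hV1o, hxV1⟩ := mem_nhds_iff.1 hV0
  refine ⟨tau0 x, ball_subset h1 hball, theta_ne h1, V1 ∩ Metric.ball (tau0 x) (1 / 8), ff i,
    hV1o.inter Metric.isOpen_ball, fun τ hτ => ball_subset h1 hτ.2, ⟨hxV1, hball⟩,
    ⟨(ff_diff i).differentiableOn, ?_⟩, hi⟩
  rintro τ hτ τ' hτ' ⟨γ, hγ, hrel⟩
  have hR : Rel γ τ τ' := rel_of_eq h1 hτ'.2 hrel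
  have hp : (τ, τ') ∈ V0 ×ˢ V0 := ⟨hV1 hτ.1, hV1 hτ'.1⟩
  exact ff_const h1 hx hγ.1 (hV hp γ hγ.1 hR) hR i

/-- The theta map fails to be an isomorphism onto its image near some point of `A_4(2,4)`, and hence
it is not true that it is an embedding for every `g ≥ 1`. -/
theorem result :
    (∃ τ₀ ∈ Siegel 4, Theta τ₀ ≠ 0 ∧ ¬ FunctionsArePullbacksAt 4 τ₀) ∧
    ¬ ∀ g : ℕ, 1 ≤ g → ThetaMapIsEmbedding g := by
  have key : ∃ τ₀ ∈ Siegel 4, Theta τ₀ ≠ 0 ∧ ¬ FunctionsArePullbacksAt 4 τ₀ := by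
    obtain ⟨τ₀, h0, hne, V, f, hV, hVS, hm, hf, hbad⟩ := main
    refine ⟨τ₀, h0, hne, fun h => ?_⟩
    obtain ⟨W, F, hW, hT, hF, hfe⟩ := h V f hV hVS hm hf
    exact hbad W F hW hT hF hfe
  refine ⟨key, fun h => ?_⟩
  obtain ⟨τ₀, h0, -, hbad⟩ := key
  exact hbad ((h 4 (by norm_num)).2 τ₀ h0).2

end

end Pool.Agent.Results.MP_2bf81a_ag.ThetaNotEmbedding
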